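import Pool.Agent.H59.SchurKey

/-!
# The Lipschitz free `p`-space over `[0,1]` has the Schur `p`-property for `0 < p < 1`

All vector spaces are real. A `p`-Banach space is a vector space `X` with a function
`N : X → ℝ` satisfying `IsPBanach p N`. A Lipschitz free `p`-space over a metric space `M` with
base point `o` is a `p`-Banach space `(F, N)` with a map `δ : M → F` satisfying the universal
property `IsLipFree`.
-/

set_option autoImplicit false
set_option linter.style.haveILetI false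

universe u

namespace Pool.Agent.Results.MP_a71740_an.SchurUnitInterval

/-- `N` is a complete `p`-norm on the real vector space `X`: it is nonnegative, vanishes only at
`0`, is absolutely homogeneous, satisfies `N (x + y) ^ p ≤ N x ^ p + N y ^ p`, and every
`N`-Cauchy sequence is `N`-convergent. So `(X, N)` is a `p`-Banach space. -/
structure IsPBanach (p : ℝ) {X : Type u} [AddCommGroup X] [Module ℝ X] (N : X → ℝ) : Prop where
  nonneg : ∀ x, 0 ≤ N x
  eq_zero : ∀ x, N x = 0 → x = 0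
  smul : ∀ (a : ℝ) (x : X), N (a • x) = |a| * N x
  add : ∀ x y : X, N (x + y) ^ p ≤ N x ^ p + N y ^ p
  complete : ∀ v : ℕ → X, (∀ ε > 0, ∃ n₀, ∀ i ≥ n₀, ∀ j ≥ n₀, N (v i - v j) < ε) →
    ∃ x, ∀ ε > 0, ∃ n₀, ∀ i ≥ n₀, N (v i - x) < ε

/-- `(F, N)` with the map `δ : M → F` is a Lipschitz free `p`-space over the metric space `M` with
base point `o`: `(F, N)` is a `p`-Banach space, `δ` is an isometric embedding with `δ o = 0`, and
every Lipschitz map `f` from `M` to a `p`-Banach space `(X, NX)` with `f o = 0` and Lipschitz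
constant `L` factors as `f = T ∘ δ` with `T` linear of norm at most `L`; moreover a bounded linear
map on `F` is determined by its values on the points `δ x`. -/
structure IsLipFree (p : ℝ) {M : Type} [MetricSpace M] (o : M) {F : Type u} [AddCommGroup F]
    [Module ℝ F] (N : F → ℝ) (δ : M → F) : Prop where
  banach : IsPBanach p N
  isometry : ∀ x y, N (δ x - δ y) = dist x y
  base : δ o = 0
  lift : ∀ (X : Type u) [AddCommGroup X] [Module ℝ X] (NX : X → ℝ), IsPBanach p NX →
    ∀ f : M → X, f o = 0 → ∀ L : ℝ, 0 ≤ L → (∀ x y, NX (f x - f y) ≤ L * dist x y) →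
    ∃ T : F →ₗ[ℝ] X, (∀ x, T (δ x) = f x) ∧ ∀ v, NX (T v) ≤ L * N v
  unique : ∀ (X : Type u) [AddCommGroup X] [Module ℝ X] (NX : X → ℝ), IsPBanach p NX →
    ∀ T T' : F →ₗ[ℝ] X, (∃ C : ℝ, ∀ v, NX (T v) ≤ C * N v) → (∃ C : ℝ, ∀ v, NX (T' v) ≤ C * N v) →
    (∀ x, T (δ x) = T' (δ x)) → T = T'

/-- The sequence `v` is equivalent to the canonical basis of `ℓ_p`. -/
def EquivLpBasis (p : ℝ) {X : Type u} [AddCommGroup X] [Module ℝ X] (N : X → ℝ)
    (v : ℕ → X) : Prop :=
  ∃ c C : ℝ, 0 < c ∧ ∀ (s : Finset ℕ) (a : ℕ → ℝ),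
    c * (∑ n ∈ s, |a n| ^ p) ^ (1 / p) ≤ N (∑ n ∈ s, a n • v n) ∧
    N (∑ n ∈ s, a n • v n) ≤ C * (∑ n ∈ s, |a n| ^ p) ^ (1 / p)

/-- The Schur `p`-property of `(X, N)`: every infinite, bounded, uniformly separated set contains a
sequence equivalent to the canonical basis of `ℓ_p`. -/
def SchurProperty (p : ℝ) {X : Type u} [AddCommGroup X] [Module ℝ X] (N : X → ℝ) : Prop :=
  ∀ A : Set X, A.Infinite → (∃ C : ℝ, ∀ x ∈ A, N x ≤ C) →
    (∃ c : ℝ, 0 < c ∧ ∀ x ∈ A, ∀ y ∈ A, x ≠ y → c ≤ N (x - y)) →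
    ∃ v : ℕ → X, (∀ n, v n ∈ A) ∧ EquivLpBasis p N v

open Filter Topology

section

variable {p : ℝ} {X : Type u} [AddCommGroup X] [Module ℝ X] {N : X → ℝ}

lemma IsPBanach.zero (h : IsPBanach p N) : N 0 = 0 := by
  have := h.smul 0 0
  simpa using this

lemma IsPBanach.neg (h : IsPBanach p N) (x : X) : N (-x) = N x := by
  have := h.smul (-1) x
  simpa using this

/-- The translation invariant metric `N (x - y) ^ p` as a norm in the sense of Mathlib. -/
noncomputable abbrev pgroup (hp0 : 0 < p) (h : IsPBanach p N) : NormedAddCommGroup X :=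
  AddGroupNorm.toNormedAddCommGroup
    { toFun := fun x => N x ^ p
      map_zero' := by simp only [h.zero]; exact Real.zero_rpow hp0.ne'
      add_le' := h.add
      neg' := fun x => by simp only [h.neg]
      eq_zero_of_map_eq_zero' := fun x hx => by
        apply h.eq_zero
        exact (Real.rpow_eq_zero (h.nonneg x) hp0.ne').1 hx }

lemma pgroup_norm (hp0 : 0 < p) (h : IsPBanach p N) (x : X) :
    letI := pgroup hp0 h
    ‖x‖ = N x ^ p := rfl

lemma pgroup_smul (hp0 : 0 < p) (h : IsPBanach p N) (a : ℝ) (x : X) :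
    letI := pgroup hp0 h
    ‖a • x‖ = |a| ^ p * ‖x‖ := by
  rw [pgroup_norm hp0 h, pgroup_norm hp0 h, h.smul, Real.mul_rpow (abs_nonneg _) (h.nonneg _)]

lemma pgroup_complete (hp0 : 0 < p) (h : IsPBanach p N) :
    letI := pgroup hp0 h
    CompleteSpace X := by
  letI := pgroup hp0 h
  apply Metric.complete_of_cauchySeq_tendsto
  intro v hv
  rw [Metric.cauchySeq_iff] at hv
  obtain ⟨x, hx⟩ := h.complete v (by
    intro ε hε
    obtain ⟨n₀, hn₀⟩ := hv (ε ^ p) (Real.rpow_pos_of_pos hε _)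
    refine ⟨n₀, fun i hi j hj => ?_⟩
    have h1 := hn₀ i hi j hj
    rw [dist_eq_norm, pgroup_norm hp0 h] at h1
    exact (Real.rpow_lt_rpow_iff (h.nonneg _) hε.le hp0).1 h1)
  refine ⟨x, ?_⟩
  rw [Metric.tendsto_atTop]
  intro ε hε
  obtain ⟨n₀, hn₀⟩ := hx (ε ^ (1 / p)) (Real.rpow_pos_of_pos hε _)
  refine ⟨n₀, fun i hi => ?_⟩
  rw [dist_eq_norm, pgroup_norm hp0 h]
  have h1 := Real.rpow_lt_rpow (h.nonneg _) (hn₀ i hi) hp0
  rwa [← Real.rpow_mul hε.le, one_div, inv_mul_cancel₀ hp0.ne', Real.rpow_one] at h1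

lemma pgroup_continuousSMul (hp0 : 0 < p) (h : IsPBanach p N) :
    letI := pgroup hp0 h
    ContinuousSMul ℝ X := by
  letI := pgroup hp0 h
  have hs := pgroup_smul hp0 h
  have habs : Tendsto (fun a : ℝ => |a| ^ p) (𝓝 0) (𝓝 0) := by
    have h1 : Tendsto (fun a : ℝ => |a|) (𝓝 0) (𝓝 |0|) := continuous_abs.tendsto 0
    have h2 := h1.rpow_const (p := p) (Or.inr hp0.le)
    rwa [abs_zero, Real.zero_rpow hp0.ne'] at h2
  apply ContinuousSMul.of_nhds_zero
  · rw [tendsto_zero_iff_norm_tendsto_zero]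
    have h1 : Tendsto (fun q : ℝ × X => |q.1| ^ p * ‖q.2‖) (𝓝 0 ×ˢ 𝓝 0) (𝓝 (0 * 0)) :=
      (habs.comp tendsto_fst).mul (tendsto_norm_zero.comp tendsto_snd)
    rw [zero_mul] at h1
    exact h1.congr (fun q => (hs q.1 q.2).symm)
  · intro x
    rw [tendsto_zero_iff_norm_tendsto_zero]
    have h1 := habs.mul_const ‖x‖
    rw [zero_mul] at h1
    exact h1.congr (fun a => (hs a x).symm)
  · intro a
    rw [tendsto_zero_iff_norm_tendsto_zero]
    have h1 : Tendsto (fun x : X => |a| ^ p * ‖x‖) (𝓝 0) (𝓝 (|a| ^ p * 0)) :=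
      tendsto_norm_zero.const_mul _
    rw [mul_zero] at h1
    exact h1.congr (fun x => (hs a x).symm)

end

lemma isPBanach_ulift {p : ℝ} (hp0 : 0 < p) (hp1 : p ≤ 1) :
    IsPBanach p (fun x : ULift.{u} ℝ => |x.down|) where
  nonneg := fun x => abs_nonneg _
  eq_zero := fun x hx => by
    have : x.down = 0 := abs_eq_zero.1 hx
    exact ULift.down_injective this
  smul := fun a x => by rw [ULift.smul_down, smul_eq_mul, abs_mul]
  add := fun x y => H59.Schur.abs_add_rpow hp0 hp1 _ _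
  complete := fun v hv => by
    have h1 : CauchySeq (fun n => (v n).down) := by
      rw [Metric.cauchySeq_iff]
      intro ε hε
      obtain ⟨n₀, hn₀⟩ := hv ε hε
      exact ⟨n₀, fun i hi j hj => by rw [Real.dist_eq]; exact hn₀ i hi j hj⟩
    obtain ⟨x, hx⟩ := cauchySeq_tendsto_of_complete h1
    rw [Metric.tendsto_atTop] at hx
    exact ⟨⟨x⟩, fun ε hε => by
      obtain ⟨n₀, hn₀⟩ := hx ε hε
      exact ⟨n₀, fun i hi => by have := hn₀ i hi; rwa [Real.dist_eq] at this⟩⟩

section

variable {p : ℝ} {F : Type u} [AddCommGroup F] [Module ℝ F] {N : F → ℝ} {o : unitInterval}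
  {δ : unitInterval → F}

lemma free (hp0 : 0 < p) (hp1 : p < 1) (h : IsLipFree p o N δ) :
    letI := pgroup hp0 h.banach
    H59.Schur.Free p δ := by
  letI := pgroup hp0 h.banach
  have hinv : ∀ x : ℝ, 0 ≤ x → (x ^ p) ^ (1 / p) = x := fun x hx => by
    rw [← Real.rpow_mul hx, mul_one_div, div_self hp0.ne', Real.rpow_one]
  have hinv' : ∀ x : ℝ, 0 ≤ x → (x ^ (1 / p)) ^ p = x := fun x hx => by
    rw [← Real.rpow_mul hx, one_div, inv_mul_cancel₀ hp0.ne', Real.rpow_one]
  refine ⟨hp0, hp1, pgroup_smul hp0 h.banach, ?_, ?_, ?_⟩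
  · intro x y
    rw [pgroup_norm hp0 h.banach, h.isometry, Subtype.dist_eq, Real.dist_eq]
  · intro f hf
    obtain ⟨T, hT1, hT2⟩ := h.lift (ULift.{u} ℝ) (fun x => |x.down|) (isPBanach_ulift hp0 hp1.le)
      (fun x => ⟨f x - f o⟩) (by rw [sub_self]; rfl) 1 zero_le_one (by
        intro x y
        rw [one_mul, Subtype.dist_eq, Real.dist_eq]
        have := hf x y
        simpa using this)
    refine ⟨ULift.moduleEquiv.toLinearMap.comp T, ?_, ?_⟩
    · intro x y
      rw [LinearMap.comp_apply, map_sub, hT1, hT1]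
      change (f x - f o) - (f y - f o) = f x - f y
      ring
    · intro v
      have h1 := hT2 v
      rw [one_mul] at h1
      rw [pgroup_norm hp0 h.banach]
      exact Real.rpow_le_rpow (abs_nonneg _) h1 hp0.le
  · intro G R K hG1 hG2 hG3 hG4 hK hG5
    have hG0 : ∀ f, 0 ≤ G f := fun f => (norm_nonneg f).trans (hG1 f)
    set N' : F → ℝ := fun f => G f ^ (1 / p) with hN'
    have hNN' : ∀ f, N f ≤ N' f := by
      intro f
      have h1 := hG1 f
      rw [pgroup_norm hp0 h.banach] at h1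
      have h2 := Real.rpow_le_rpow (z := 1 / p) (Real.rpow_nonneg (h.banach.nonneg f) _) h1
        (by positivity)
      rwa [hinv _ (h.banach.nonneg f)] at h2
    have hR0 : ∀ f : F, f ≠ 0 → 0 ≤ R := by
      intro f hf
      by_contra hneg
      push Not at hneg
      have h1 := (hG0 f).trans (hG2 f)
      have h2 : 0 < ‖f‖ := norm_pos_iff.2 hf
      nlinarith
    have hN'N : ∀ f, N' f ≤ |R| ^ (1 / p) * N f := by
      intro f
      have h1 : G f ≤ |R| * ‖f‖ :=
        (hG2 f).trans (mul_le_mul_of_nonneg_right (le_abs_self R) (norm_nonneg _))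
      rw [pgroup_norm hp0 h.banach] at h1
      have h2 := Real.rpow_le_rpow (z := 1 / p) (hG0 f) h1 (by positivity)
      rwa [Real.mul_rpow (abs_nonneg _) (Real.rpow_nonneg (h.banach.nonneg f) _),
        hinv _ (h.banach.nonneg f)] at h2
    have hB : IsPBanach p N' := by
      refine ⟨fun f => Real.rpow_nonneg (hG0 f) _, ?_, ?_, ?_, ?_⟩
      · intro f hf
        apply h.banach.eq_zero
        exact le_antisymm ((hNN' f).trans hf.le) (h.banach.nonneg f)
      · intro a f
        simp only [hN']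
        rw [hG3, Real.mul_rpow (Real.rpow_nonneg (abs_nonneg _) _) (hG0 f), hinv _ (abs_nonneg a)]
      · intro f g
        simp only [hN']
        rw [hinv' _ (hG0 _), hinv' _ (hG0 _), hinv' _ (hG0 _)]
        exact hG4 f g
      · intro v hv
        obtain ⟨x, hx⟩ := h.banach.complete v (fun ε hε => by
          obtain ⟨n₀, hn₀⟩ := hv ε hε
          exact ⟨n₀, fun i hi j hj => (hNN' _).trans_lt (hn₀ i hi j hj)⟩)
        refine ⟨x, fun ε hε => ?_⟩
        have hpos : 0 < |R| ^ (1 / p) + 1 := by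
          have := Real.rpow_nonneg (abs_nonneg R) (1 / p); linarith
        obtain ⟨n₀, hn₀⟩ := hx (ε / (|R| ^ (1 / p) + 1)) (div_pos hε hpos)
        refine ⟨n₀, fun i hi => ?_⟩
        have h1 := hn₀ i hi
        rw [lt_div_iff₀ hpos] at h1
        have h2 := hN'N (v i - x)
        have h3 := h.banach.nonneg (v i - x)
        nlinarith
    obtain ⟨T, hT1, hT2⟩ := h.lift F N' hB δ h.base (K ^ (1 / p)) (Real.rpow_nonneg hK _) (by
      intro x y
      have h1 := Real.rpow_le_rpow (z := 1 / p) (hG0 _) (hG5 x y) (by positivity)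
      rw [Real.mul_rpow hK (Real.rpow_nonneg (abs_nonneg _) _), hinv _ (abs_nonneg _)] at h1
      rw [Subtype.dist_eq, Real.dist_eq]
      exact h1)
    have hTid : T = LinearMap.id := by
      apply h.unique F N h.banach T LinearMap.id
      · exact ⟨K ^ (1 / p), fun v => (hNN' _).trans (hT2 v)⟩
      · exact ⟨1, fun v => by rw [one_mul]; rfl⟩
      · exact hT1
    intro f
    have h1 := hT2 f
    rw [hTid, LinearMap.id_apply] at h1
    have h2 := Real.rpow_le_rpow (z := p) (Real.rpow_nonneg (hG0 f) _) h1 hp0.le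
    rw [hinv' _ (hG0 f), Real.mul_rpow (Real.rpow_nonneg hK _) (h.banach.nonneg f),
      hinv' _ hK] at h2
    rw [pgroup_norm hp0 h.banach]
    exact h2

end

/-- For `0 < p < 1`, every Lipschitz free `p`-space over the unit interval with its usual metric
(for any base point) has the Schur `p`-property. -/
theorem result (p : ℝ) (hp0 : 0 < p) (hp1 : p < 1) (o : unitInterval) {F : Type u}
    [AddCommGroup F] [Module ℝ F] (N : F → ℝ) (δ : unitInterval → F)
    (h : IsLipFree p o N δ) : SchurProperty p N := by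
  intro A hinf hbd hsep
  obtain ⟨C, hC⟩ := hbd
  obtain ⟨c, hc, hsep⟩ := hsep
  letI := pgroup hp0 h.banach
  haveI := pgroup_complete hp0 h.banach
  haveI := pgroup_continuousSMul hp0 h.banach
  have hfree := free hp0 hp1 h
  have hK := H59.Schur.KK_pos (p := p)
  have hinv : ∀ x : ℝ, 0 ≤ x → (x ^ p) ^ (1 / p) = x := fun x hx => by
    rw [← Real.rpow_mul hx, mul_one_div, div_self hp0.ne', Real.rpow_one]
  obtain ⟨v, hvA, c', hc', hv⟩ := H59.Schur.schur_abs hfree.atoms
    (K := 2 * (H59.Schur.KK p + 1)) (by linarith) (H59.Schur.onto hfree) (H59.Schur.key hfree)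
    A hinf (|C| ^ p) (fun x hx => by
      rw [pgroup_norm hp0 h.banach]
      exact Real.rpow_le_rpow (h.banach.nonneg _) ((hC x hx).trans (le_abs_self C)) hp0.le)
    (c ^ p) (Real.rpow_pos_of_pos hc _) (fun x hx y hy hxy => by
      rw [pgroup_norm hp0 h.banach]
      exact Real.rpow_le_rpow hc.le (hsep x hx y hy hxy) hp0.le)
  refine ⟨v, hvA, c' ^ (1 / p), |C|, Real.rpow_pos_of_pos hc' _, fun s a => ?_⟩
  have hsum : 0 ≤ ∑ n ∈ s, |a n| ^ p :=
    Finset.sum_nonneg (fun _ _ => Real.rpow_nonneg (abs_nonneg _) _)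
  obtain ⟨h1, h2⟩ := hv s a
  rw [pgroup_norm hp0 h.banach] at h1 h2
  constructor
  · have h3 := Real.rpow_le_rpow (z := 1 / p) (mul_nonneg hc'.le hsum) h1 (by positivity)
    rwa [hinv _ (h.banach.nonneg _), Real.mul_rpow hc'.le hsum] at h3
  · have h3 := Real.rpow_le_rpow (z := 1 / p) (Real.rpow_nonneg (h.banach.nonneg _) _) h2
      (by positivity)
    rwa [hinv _ (h.banach.nonneg _), Real.mul_rpow (Real.rpow_nonneg (abs_nonneg _) _) hsum,
      hinv _ (abs_nonneg C)] at h3

end Pool.Agent.Results.MP_a71740_an.SchurUnitInterval
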